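import Pool.Agent.Q215.SAW.Knot

/-!
Lattice polygons of fixed knot type: the asymptotic form `p_n(K) ~ A n^(α-3) μ_K^n` holds if and only
if it holds on average over every window of `δ √n` even lengths, for every `δ > 0`; in particular it
follows from the corresponding formula with the remainder `o(√n)` for the sums over the lengths up
to `n`.
-/

set_option autoImplicit false

namespace Pool.Agent.Results.MP_aea6d5_co.Averages

open Filter Topology KN

/-- The quotient `p_n(Q) / (n^(α-3) μ_Q^n)` of the problem at the length `n = 2 k`. -/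
noncomputable def F (Q : List Dir → Prop) (α : ℝ) (k : ℕ) : ℝ :=
  pq Q (2 * k) / ((2 * k : ℝ) ^ (α - 3) * gr Q ^ (2 * k))

/-- the number of lengths in the window at `m`: `⌊δ √m⌋ + 1` -/
noncomputable def W (δ : ℝ) (m : ℕ) : ℕ := ⌊δ * √(m : ℝ)⌋₊ + 1

/-- **Theorem.** Let `Q` be a class of knot types (for instance one knot type), `α` real and `A > 0`.

(1) `F k → A` as `k → ∞` (the asymptotic form of the problem) if and only if for every `δ > 0` the
average of the numbers `F k`, `m ≤ k ≤ m + δ √m`, tends to `A` as `m → ∞`.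

(2) If `∑_{k < m} F k = A m + o(√m)`, then `F k → A`.

(3) Every knot type is such a class. -/
theorem result (Q : List Dir → Prop) (hQ : KClass Q) (hne : ∃ w, SAP w ∧ Q w) :
    (∀ α A : ℝ, 0 < A →
      (Tendsto (F Q α) atTop (𝓝 A) ↔
        ∀ δ : ℝ, 0 < δ → Tendsto (fun m : ℕ =>
          (∑ i ∈ Finset.range (W δ m), F Q α (m + i)) / W δ m) atTop (𝓝 A)) ∧
      (Tendsto (fun m : ℕ => (∑ k ∈ Finset.range m, F Q α k - A * m) / √(m : ℝ)) atTop (𝓝 0) →
        Tendsto (F Q α) atTop (𝓝 A))) ∧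
    ∀ k : List V, KClass (KT k) := by
  refine ⟨fun α A hA => ?_, GEN.kt_class⟩
  have hF : ∀ k, F Q α k = Q215.SAW.Knot.Fq Q (α - 3) k := fun _ => rfl
  have hF' : F Q α = Q215.SAW.Knot.Fq Q (α - 3) := rfl
  have hW : ∀ δ m, W δ m = Q215.SAW.Cvx.wd δ m := fun _ _ => rfl
  rw [hF']
  simp only [hW]
  have key := Q215.SAW.Knot.avg_form Q hQ hne (α - 3) hA
  exact ⟨⟨fun h1 δ _ => Q215.SAW.Cvx.avg_conv h1 δ, key⟩,
    fun h1 => key fun δ hδ => Q215.SAW.Cvx.avg_sum h1 hδ⟩

end Pool.Agent.Results.MP_aea6d5_co.Averages
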