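import Pool.Agent.Q219.SAW.KntB

/-!
# Lattice knots: the rate of convergence of the ratios in terms of the deficit of the counts
-/

set_option autoImplicit false

namespace Pool.Agent.Results.MP_aea6d5_co.RatioRateByDeficit

open Filter Topology KN

/-- For every class `Q` of knot types (in particular every single knot type) there are `R, δ > 0`
such that for all large `k`: if `1 ≤ L ≤ δ k` and the normalised counts
`y j = p_(2j) / (gr Q)^(2j)` satisfy `y k ≥ e^(-L)` and `y m ≤ e^L y k` for all `m ≤ 2 k`, then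
`|p_(2k+2) / p_(2k) - (gr Q)^2| ≤ R √(L / k)`.  If `Q` is closed under connected sums, then
`|p_(2k+2) / p_(2k) - (gr Q)^2| ≤ R √((1 + log ((gr Q)^(2k) / p_(2k))) / k)` for all large `k`;
this applies to the unknot. -/
theorem result :
    (∀ Q : List Dir → Prop, KClass Q → (∃ w, SAP w ∧ Q w) →
      (∃ R δ : ℝ, 0 < R ∧ 0 < δ ∧ ∀ᶠ k : ℕ in atTop, ∀ L : ℝ, 1 ≤ L → L ≤ δ * k →
        Real.exp (-L) * gr Q ^ (2 * k) ≤ pq Q (2 * k) →
        (∀ m, m ≤ 2 * k →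
          pq Q (2 * m) / gr Q ^ (2 * m) ≤ Real.exp L * (pq Q (2 * k) / gr Q ^ (2 * k))) →
        |pq Q (2 * k + 2) / pq Q (2 * k) - gr Q ^ 2| ≤ R * √(L / k)) ∧
      (CSum Q → ∃ R : ℝ, 0 < R ∧ ∀ᶠ k : ℕ in atTop, 0 < pq Q (2 * k) ∧
        |pq Q (2 * k + 2) / pq Q (2 * k) - gr Q ^ 2| ≤
          R * √((1 + max 0 (Real.log (gr Q ^ (2 * k) / pq Q (2 * k)))) / k))) ∧
    (∀ k : List V, KClass (KT k)) ∧ KClass U ∧ CSum U ∧ (∃ w, SAP w ∧ U w) := by
  refine ⟨fun Q hQ hne => ?_, GEN.kt_class, GEN.kt_class sq, GEN.u_csum,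
    ⟨sqw, c_sq.2.1, Or.inl (Same.refl _)⟩⟩
  obtain ⟨h1, -, -⟩ := gr_bounds Q hQ hne
  have hμ : 0 < gr Q := by linarith
  have hμk : ∀ n : ℕ, 0 < gr Q ^ n := fun n => pow_pos hμ n
  have hy := TH966.KS.yq_nonneg Q hμ.le
  obtain ⟨D, θ, k0, hD, hθ0, hθ1, hK⟩ := TH966.KS.kes_yq Q hQ hne
  obtain ⟨R, δ, hR, hδ, hrate⟩ := Q219.SAW.Knt.rate hK hy hD hθ0 hθ1
  have hrat : ∀ k : ℕ, pq Q (2 * k + 2) / pq Q (2 * k) - gr Q ^ 2 =
      gr Q ^ 2 * (TH966.KS.yq Q (k + 1) / TH966.KS.yq Q k - 1) := by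
    intro k
    unfold TH966.KS.yq
    have e1 : 2 * (k + 1) = 2 * k + 2 := by ring
    rw [e1, pow_add]
    have h2 := (hμk (2 * k)).ne'
    have h3 : (gr Q ^ 2) ≠ 0 := (hμk 2).ne'
    rcases eq_or_ne (pq Q (2 * k)) 0 with h0 | h0
    · rw [h0]
      simp
    · field_simp
  have key : ∃ R δ : ℝ, 0 < R ∧ 0 < δ ∧ ∀ᶠ k : ℕ in atTop, ∀ L : ℝ, 1 ≤ L → L ≤ δ * k →
      Real.exp (-L) * gr Q ^ (2 * k) ≤ pq Q (2 * k) →
      (∀ m, m ≤ 2 * k →
        pq Q (2 * m) / gr Q ^ (2 * m) ≤ Real.exp L * (pq Q (2 * k) / gr Q ^ (2 * k))) →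
      |pq Q (2 * k + 2) / pq Q (2 * k) - gr Q ^ 2| ≤ R * √(L / k) := by
    refine ⟨gr Q ^ 2 * R, δ, mul_pos (hμk 2) hR, hδ, ?_⟩
    filter_upwards [hrate] with k hk L hL1 hL2 hlow hup
    have hyk : Real.exp (-L) ≤ TH966.KS.yq Q k := by
      unfold TH966.KS.yq
      rwa [le_div_iff₀ (hμk _)]
    have hyk0 : 0 < TH966.KS.yq Q k := (Real.exp_pos _).trans_le hyk
    have h3 := hk L hL1 hL2 hyk0 (by
      have := (Real.le_log_iff_exp_le hyk0).2 hyk
      linarith) hup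
    rw [hrat, abs_mul, abs_of_pos (hμk 2), mul_assoc]
    exact mul_le_mul_of_nonneg_left h3 (hμk 2).le
  refine ⟨key, fun hc => ?_⟩
  obtain ⟨R, δ, hR, hδ, hkey⟩ := key
  obtain ⟨B, hB1, hB⟩ : ∃ B : ℝ, 1 ≤ B ∧ ∀ m, TH966.KS.yq Q m ≤ B :=
    ⟨16, by norm_num, Q219.SAW.Knt.bdd_sum Q hQ hne hc⟩
  have hlB : 0 ≤ Real.log B := Real.log_nonneg hB1
  -- the deficit is small
  have hroots := (class_sum Q hQ hne hc).1
  obtain ⟨E, hE⟩ : ∃ E : ℝ, E = 1 + Real.log B := ⟨_, rfl⟩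
  have hE1 : 1 ≤ E := by rw [hE]; linarith
  have hsmall : ∀ᶠ k : ℕ in atTop,
      E * (1 + max 0 (Real.log (gr Q ^ (2 * k) / pq Q (2 * k)))) ≤ δ * k := by
    have hη : 0 < δ / (4 * E) := by positivity
    have h2 : gr Q * Real.exp (-(δ / (4 * E))) < gr Q := by
      have : Real.exp (-(δ / (4 * E))) < 1 := by
        rw [Real.exp_lt_one_iff]
        linarith
      nlinarith
    filter_upwards [hroots.eventually_const_lt h2, class_pos Q hQ hne,
      eventually_ge_atTop (⌈2 * E / δ⌉₊ + 1)] with k h3 h4 h5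
    have hk0 : (0 : ℝ) < k := by exact_mod_cast (show 0 < k by omega)
    have h6 : (gr Q * Real.exp (-(δ / (4 * E)))) ^ (2 * k) ≤ pq Q (2 * k) := by
      have h7 := pow_le_pow_left₀ (mul_pos hμ (Real.exp_pos _)).le h3.le (2 * k)
      refine h7.trans (le_of_eq ?_)
      rw [← Real.rpow_natCast, ← Real.rpow_mul h4.le]
      have : 1 / (2 * (k : ℝ)) * ((2 * k : ℕ) : ℝ) = 1 := by
        push_cast
        field_simp
      rw [this, Real.rpow_one]
    have h7 : Real.log (gr Q ^ (2 * k) / pq Q (2 * k)) ≤ k * (δ / (2 * E)) := by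
      rw [Real.log_le_iff_le_exp (div_pos (hμk _) h4), div_le_iff₀ h4]
      rw [mul_pow, ← Real.exp_nat_mul] at h6
      have h8 := mul_le_mul_of_nonneg_left h6 (Real.exp_pos (k * (δ / (2 * E)))).le
      refine le_trans (le_of_eq ?_) h8
      have e : Real.exp (k * (δ / (2 * E))) * (gr Q ^ (2 * k) *
          Real.exp (((2 * k : ℕ) : ℝ) * -(δ / (4 * E)))) =
          gr Q ^ (2 * k) * (Real.exp (k * (δ / (2 * E))) *
            Real.exp (((2 * k : ℕ) : ℝ) * -(δ / (4 * E)))) := by ring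
      rw [e, ← Real.exp_add]
      have e2 : (k : ℝ) * (δ / (2 * E)) + ((2 * k : ℕ) : ℝ) * -(δ / (4 * E)) = 0 := by
        push_cast
        field_simp
        ring
      rw [e2, Real.exp_zero, mul_one]
    have h8 : max 0 (Real.log (gr Q ^ (2 * k) / pq Q (2 * k))) ≤ k * (δ / (2 * E)) :=
      max_le (by positivity) h7
    have h9 : 2 * E / δ ≤ k := by
      refine (Nat.le_ceil _).trans ?_
      exact_mod_cast (show ⌈2 * E / δ⌉₊ ≤ k by omega)
    have h10 : E ≤ δ * k / 2 := by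
      rw [div_le_iff₀ hδ] at h9
      linarith
    calc E * (1 + max 0 (Real.log (gr Q ^ (2 * k) / pq Q (2 * k)))) ≤
          E * (1 + k * (δ / (2 * E))) := mul_le_mul_of_nonneg_left (by linarith) (by linarith)
      _ = E + δ * k / 2 := by field_simp
      _ ≤ δ * k := by linarith
  refine ⟨R * √E, mul_pos hR (Real.sqrt_pos.2 (by linarith)), ?_⟩
  filter_upwards [hkey, hsmall, class_pos Q hQ hne] with k hk hs hp
  refine ⟨hp, ?_⟩
  obtain ⟨X, hX⟩ : ∃ X : ℝ, X = max 0 (Real.log (gr Q ^ (2 * k) / pq Q (2 * k))) := ⟨_, rfl⟩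
  have hX0 : 0 ≤ X := by rw [hX]; exact le_max_left _ _
  have hX1 : Real.log (gr Q ^ (2 * k) / pq Q (2 * k)) ≤ X := by rw [hX]; exact le_max_right _ _
  rw [← hX] at hs ⊢
  have hy0 : 0 < pq Q (2 * k) / gr Q ^ (2 * k) := div_pos hp (hμk _)
  have hlow : Real.exp (-X) ≤ pq Q (2 * k) / gr Q ^ (2 * k) := by
    rw [← Real.le_log_iff_exp_le hy0]
    rw [← inv_div, Real.log_inv] at hX1
    linarith
  have hXE : X ≤ E * (1 + X) := by nlinarith
  have h2 := hk (E * (1 + X)) (by nlinarith) hs (by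
    have h3 : Real.exp (-(E * (1 + X))) ≤ Real.exp (-X) := Real.exp_le_exp.2 (by linarith)
    exact (le_div_iff₀ (hμk _)).1 (h3.trans hlow)) (by
    intro m _
    have h3 : TH966.KS.yq Q m ≤ B := hB m
    have h4 : B ≤ Real.exp (E * (1 + X)) * Real.exp (-X) := by
      rw [← Real.exp_add, ← Real.log_le_iff_le_exp (by linarith)]
      rw [hE]
      nlinarith
    exact h3.trans (h4.trans (mul_le_mul_of_nonneg_left hlow (Real.exp_pos _).le)))
  refine h2.trans (le_of_eq ?_)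
  rw [mul_assoc, ← Real.sqrt_mul (by linarith : (0 : ℝ) ≤ E), mul_div_assoc]

end Pool.Agent.Results.MP_aea6d5_co.RatioRateByDeficit
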