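import Pool.Agent.Q215.SAW.KnotD

/-!
Lattice polygons of fixed knot type: the second differences of `log p_n(K)` are of order `1/n` on
average over stretches of lengths.
-/

set_option autoImplicit false

namespace Pool.Agent.Results.MP_aea6d5_co.SecondDifferences

open Filter Topology KN

/-- the second difference of `log p_n` (over even lengths) at `n = 2 k` -/
noncomputable def E (Q : List Dir → Prop) (k : ℕ) : ℝ :=
  Real.log (pq Q (2 * k) * pq Q (2 * k + 4) / pq Q (2 * k + 2) ^ 2)

/-- the deficit `max (0, log (μ^n / p_n))` at `n = 2 k` -/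
noncomputable def deficit (Q : List Dir → Prop) (k : ℕ) : ℝ :=
  max 0 (Real.log (gr Q ^ (2 * k) / pq Q (2 * k)))

/-- **Theorem.** Let `Q` be a class of knot types of lattice polygons.

(1) If `Q` is closed under connected sums (for instance the unknot), then there is `K > 0` such that
for all large `n` and all `w` the sum of `|E k|` over `n ≤ k < n + w` is at most
`K (w/n + √((1 + deficit n)/n) + √((1 + deficit (n+w))/(n+w)))`; moreover for every `ε > 0` it is at
most `K w/n + ε` for all large `n` and all `w`.  Hence for every `T > 0` and all large `n` at most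
`(K+1) n/T` of the `k` with `n ≤ k < 2n` have `|E k| > T/n`.

(2) If the counts of the class `Q` (for instance one knot type) satisfy
`n^(-B) μ^n ≤ p_n ≤ n^B μ^n` for the lengths `n = 2 u_j` of one sequence with gaps
`O(√(u_j log u_j))` (for instance if the asymptotic form of the problem holds along it), then there
is `K > 0` such that for all large `n` and all `w` the sum of `|E k|` over `n ≤ k < n + w` is at most
`K (w/n + √(log n / n))`. -/
theorem result :
    (∀ Q : List Dir → Prop, KClass Q → (∃ w, SAP w ∧ Q w) →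
      (CSum Q → ∃ K : ℝ, 0 < K ∧
        (∀ᶠ n : ℕ in atTop, ∀ w : ℕ, ∑ i ∈ Finset.range w, |E Q (n + i)| ≤
          K * (w / n + √((1 + deficit Q n) / n) + √((1 + deficit Q (n + w)) / (n + w : ℕ)))) ∧
        (∀ ε : ℝ, 0 < ε → ∀ᶠ n : ℕ in atTop, ∀ w : ℕ,
          ∑ i ∈ Finset.range w, |E Q (n + i)| ≤ K * (w / n) + ε) ∧
        ∀ T : ℝ, 0 < T → ∀ᶠ n : ℕ in atTop,
          (((Finset.Ico n (2 * n)).filter (fun k => T / n < |E Q k|)).card : ℝ) ≤
            (K + 1) * n / T) ∧
      ∀ (u : ℕ → ℕ) (B C : ℝ), Tendsto u atTop atTop →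
        (∀ᶠ j : ℕ in atTop, (u (j + 1) : ℝ) ≤ u j + C * √(u j * Real.log (u j))) →
        (∀ᶠ j : ℕ in atTop,
          |Real.log (pq Q (2 * u j) / gr Q ^ (2 * u j))| ≤ B * Real.log (u j)) →
        ∃ K : ℝ, 0 < K ∧ ∀ᶠ n : ℕ in atTop, ∀ w : ℕ,
          ∑ i ∈ Finset.range w, |E Q (n + i)| ≤ K * (w / n + √(Real.log n / n))) ∧
    (∀ k : List V, KClass (KT k)) ∧ KClass U ∧ CSum U ∧ (∃ w, SAP w ∧ U w) := by
  refine ⟨fun Q hQ hne => ⟨fun hc => ?_, ?_⟩, GEN.kt_class, GEN.kt_class sq, GEN.u_csum,
    ⟨sqw, c_sq.2.1, Or.inl (Same.refl _)⟩⟩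
  · obtain ⟨K, hK, h1, h2⟩ := Q215.SAW.Knot.tv_csum Q hQ hne hc
    have hE : ∀ k, E Q k = Q215.SAW.Knot.E2 Q k := fun _ => rfl
    refine ⟨K, hK, h1, h2, fun T hT => ?_⟩
    filter_upwards [h2 1 one_pos, eventually_ge_atTop 1] with n hn hn1
    have hn0 : (0 : ℝ) < n := by exact_mod_cast hn1
    have h3 := hn n
    rw [div_self hn0.ne', mul_one] at h3
    have h4 : ∑ k ∈ Finset.Ico n (2 * n), |Q215.SAW.Knot.E2 Q k| ≤ K + 1 := by
      rw [Finset.sum_Ico_eq_sum_range, show 2 * n - n = n by omega]
      exact h3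
    have h5 : ∑ k ∈ (Finset.Ico n (2 * n)).filter (fun k => T / n < |E Q k|), T / n ≤
        ∑ k ∈ Finset.Ico n (2 * n), |Q215.SAW.Knot.E2 Q k| := by
      refine (Finset.sum_le_sum fun k hk => ?_).trans
        (Finset.sum_le_sum_of_subset_of_nonneg (Finset.filter_subset _ _) fun _ _ _ => abs_nonneg _)
      have := (Finset.mem_filter.1 hk).2
      rw [hE] at this
      exact this.le
    rw [Finset.sum_const, nsmul_eq_mul] at h5
    rw [le_div_iff₀ hT]
    have h6 := h5.trans h4
    rw [← mul_div_assoc, div_le_iff₀ hn0] at h6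
    exact h6
  · intro u B C hu hgap hB
    obtain ⟨e1, e2, e3, e4⟩ := Q215.SAW.Knot.E_facts
    have hS := TH966.KS.gaps u hu (fun n => 1 + Real.log (n : ℝ)) e2
      (fun n => by linarith [e1 n]) (|C| + 1) (by positivity) (by
        filter_upwards [hgap, hu.eventually_ge_atTop 1] with j h1 h2
        have h3 : √((u j : ℝ) * Real.log (u j)) ≤ √((u j : ℝ) * (1 + Real.log (u j))) := by
          refine Real.sqrt_le_sqrt (mul_le_mul_of_nonneg_left (by linarith) (Nat.cast_nonneg _))
        have h4 : C * √((u j : ℝ) * Real.log (u j)) ≤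
            (|C| + 1) * √((u j : ℝ) * (1 + Real.log (u j))) := by
          refine (mul_le_mul_of_nonneg_right (le_abs_self C) (Real.sqrt_nonneg _)).trans ?_
          exact mul_le_mul (by linarith) h3 (Real.sqrt_nonneg _) (by positivity)
        linarith)
    have hy := TH966.KS.along u (fun k => |Real.log (TH966.KS.yq Q k)| ≤
      (|B| + 1) * (1 + Real.log k)) (by
        filter_upwards [hB, hu.eventually_ge_atTop 1] with j h1 h2
        have h3 : 0 ≤ Real.log (u j : ℝ) := Real.log_nonneg (by exact_mod_cast h2)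
        refine h1.trans ?_
        have h4 := mul_le_mul_of_nonneg_right (le_abs_self B) h3
        nlinarith [abs_nonneg B])
    obtain ⟨M, hM⟩ := Q215.SAW.Knot.poly_of Q hQ hne (S := Set.range u) (τ := |B| + 1)
      (δ := |C| + 1) (by positivity) (by positivity) hS hy
    exact Q215.SAW.Knot.tv_poly Q hQ hne hM

end Pool.Agent.Results.MP_aea6d5_co.SecondDifferences
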