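import Pool.Agent.Q219.SAW.Knt

/-!
# Lattice knots: the counts and their generating function near the critical point
-/

set_option autoImplicit false

namespace Pool.Agent.Results.MP_aea6d5_co.SusceptibilityBound

open Filter Topology KN

/-- the generating function of the polygons of class `Q` at `z = e^(-1/(2N)) / gr Q`:
`∑ p_(2k) z^(2k)` -/
noncomputable def chi (Q : List Dir → Prop) (N : ℕ) : ℝ :=
  ∑' k : ℕ, pq Q (2 * k) * (Real.exp (-(1 / (2 * N : ℝ))) / gr Q) ^ (2 * k)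

/-- For every class `Q` of knot types (in particular for every single knot type): the generating
function is finite below the critical point, `p_(2N) ≤ C (χ(N) / √N) (gr Q)^(2N)` for all `N ≥ 1`,
and if `χ(N) ≤ N ^ g` for all large `N` then `p_(2n) ≤ n ^ (g - 1/2 + δ) (gr Q)^(2n)` for all
`δ > 0` and all large `n`. -/
theorem result :
    (∀ Q : List Dir → Prop, KClass Q → (∃ w, SAP w ∧ Q w) →
      0 < gr Q ∧
      (∀ N : ℕ, 1 ≤ N → Summable fun k : ℕ =>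
        pq Q (2 * k) * (Real.exp (-(1 / (2 * N : ℝ))) / gr Q) ^ (2 * k)) ∧
      (∃ C : ℝ, 0 < C ∧ ∀ N : ℕ, 1 ≤ N →
        pq Q (2 * N) ≤ C * (chi Q N / √N) * gr Q ^ (2 * N)) ∧
      (∀ g : ℝ, (∀ᶠ N : ℕ in atTop, chi Q N ≤ (N : ℝ) ^ g) → ∀ δ : ℝ, 0 < δ →
        ∀ᶠ n : ℕ in atTop, pq Q (2 * n) ≤ (n : ℝ) ^ (g - 1 / 2 + δ) * gr Q ^ (2 * n))) ∧
    (∀ k : List V, KClass (KT k)) := by
  refine ⟨fun Q hQ hne => ?_, GEN.kt_class⟩
  obtain ⟨h1, -, -⟩ := gr_bounds Q hQ hne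
  have hμ : 0 < gr Q := by linarith
  have hy := TH966.KS.yq_nonneg Q hμ.le
  have hgr := Q219.SAW.Knt.grow Q hQ hne
  have hterm : ∀ N : ℕ, ∀ k : ℕ,
      pq Q (2 * k) * (Real.exp (-(1 / (2 * N : ℝ))) / gr Q) ^ (2 * k) =
      TH966.KS.yq Q k * Real.exp (-(k / N : ℝ)) := by
    intro N k
    unfold TH966.KS.yq
    rw [div_pow, ← Real.exp_nat_mul]
    have e : ((2 * k : ℕ) : ℝ) * -(1 / (2 * N : ℝ)) = -(k / N : ℝ) := by
      push_cast
      rcases Nat.eq_zero_or_pos N with rfl | hN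
      · simp
      · have : (N : ℝ) ≠ 0 := by exact_mod_cast hN.ne'
        field_simp
    rw [e]
    ring
  have hchi : ∀ N : ℕ, chi Q N = Q219.SAW.Knt.gen (TH966.KS.yq Q) N := by
    intro N
    unfold chi Q219.SAW.Knt.gen
    exact tsum_congr (hterm N)
  obtain ⟨D, θ, k0, hD, hθ0, hθ1, hK⟩ := TH966.KS.kes_yq Q hQ hne
  have hpos : ∃ k, 0 < TH966.KS.yq Q k := by
    obtain ⟨j, hj⟩ := (class_pos Q hQ hne).exists
    exact ⟨j, div_pos hj (pow_pos hμ _)⟩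
  have hroot := Q219.SAW.Knt.root hK hy hD hθ0 hθ1 hgr hpos
  have hback : ∀ n : ℕ, ∀ x : ℝ, TH966.KS.yq Q n ≤ x → pq Q (2 * n) ≤ x * gr Q ^ (2 * n) := by
    intro n x hx
    unfold TH966.KS.yq at hx
    rwa [div_le_iff₀ (pow_pos hμ _)] at hx
  refine ⟨hμ, fun N hN => ?_, ?_, fun g hg δ hδ => ?_⟩
  · exact (Q219.SAW.Knt.summ hy hgr N hN).congr fun k => (hterm N k).symm
  · obtain ⟨C, hC, h⟩ := hroot
    refine ⟨C, hC, fun N hN => hback N _ ?_⟩
    rw [hchi]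
    exact h N hN
  · simp only [hchi] at hg
    filter_upwards [Q219.SAW.Knt.expo hroot g hg δ hδ] with n hn
    exact hback n _ hn

end Pool.Agent.Results.MP_aea6d5_co.SusceptibilityBound
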